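import Pool.Agent.Helper37.Kq.Poly
import Pool.Agent.Helper37.Kp.Slice
import Pool.Graph.R_seed8.Y254.EL.Cover

set_option autoImplicit false
set_option linter.unusedSectionVars false

/-!
Bundles of thin tubes.
-/

open MeasureTheory Set Filter Topology ENNReal NNReal Metric

namespace Pool.Agent.Helper37.Kq

open Pool.Agent.H742R2.Kk
open Pool.Agent.K3h46.TMC
open Pool.Agent.Helper37.Kp (perp_le)

/-- The half interval of the axis. -/
abbrev I2 : Set ℝ := Icc (-(1 / 2)) (1 / 2)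

/-- Many separated directions in a cap. -/
theorem exists_bundle (d : ℕ) : ∃ c : ℝ, 0 < c ∧ ∀ δ ρ : ℝ, 0 < δ → δ ≤ ρ → ρ ≤ 1 →
    ∀ e0 : E (d + 1), ‖e0‖ = 1 → ∀ m : ℕ, (m : ℝ) ≤ c * (ρ / δ) ^ d →
    ∃ f : Fin m → E (d + 1), (∀ j, ‖f j‖ = 1) ∧ (∀ j, ‖f j - e0‖ ≤ ρ / 8) ∧
      ∀ j j', j ≠ j' → δ ≤ ‖f j - f j'‖ := by
  obtain ⟨C1, hC1, hpack⟩ := cap_packing d
  obtain ⟨c, hc, hcap⟩ := volume_capSet_ge d
  refine ⟨c * (1 / 4) ^ d / (2 * 4 ^ d), by positivity, ?_⟩
  intro δ ρ hδ hδρ hρ1 e0 he0 m hm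
  have hρ : 0 < ρ := by linarith
  -- a maximal separated family has at least `m` elements
  have key : ∀ k : ℕ, k ≤ m → ∃ X : Finset (E (d + 1)), X.card = k ∧
      (∀ x ∈ X, ‖x‖ = 1 ∧ ‖x - e0‖ ≤ ρ / 8) ∧ (∀ x ∈ X, ∀ x' ∈ X, x ≠ x' → δ ≤ ‖x - x'‖) := by
    intro k
    induction k with
    | zero => exact fun _ => ⟨∅, rfl, by simp, by simp⟩
    | succ k ih =>
      intro hk
      obtain ⟨X, hXk, hX1, hX2⟩ := ih (by omega)
      classical
      -- the caps around the members do not cover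
      have hex : ∃ y : E (d + 1), ‖y‖ = 1 ∧ ‖y - e0‖ ≤ ρ / 8 ∧ ∀ x ∈ X, δ ≤ ‖y - x‖ := by
        by_contra hcon
        push Not at hcon
        have hsub : TH539.capSet (ρ / 4) e0 ⊆ ⋃ x ∈ X, cyl δ (Icc (-1) 1) x 0 := by
          intro y hy
          obtain ⟨h1, h2, h3⟩ := TH539.capSet_sub (by positivity) (by linarith) he0 hy
          have hn1 : ‖‖y‖⁻¹ • y‖ = 1 := by
            rw [norm_smul, norm_inv, norm_norm, inv_mul_cancel₀ h1.ne']
          obtain ⟨x, hx, hxy⟩ := hcon (‖y‖⁻¹ • y) hn1 (by linarith)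
          rw [mem_iUnion₂]
          refine ⟨x, hx, ?_, ?_⟩
          · rw [sub_zero, mem_Icc, ← abs_le]
            refine (abs_real_inner_le_norm _ _).trans ?_
            rw [(hX1 x hx).1, mul_one]
            exact h2.le
          · rw [sub_zero]
            refine (perp_le (hX1 x hx).1 y ‖y‖).trans ?_
            have e1 : y - ‖y‖ • x = ‖y‖ • (‖y‖⁻¹ • y - x) := by
              rw [smul_sub, smul_smul, mul_inv_cancel₀ h1.ne', one_smul]
            rw [e1, norm_smul, norm_norm]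
            calc ‖y‖ * ‖‖y‖⁻¹ • y - x‖ ≤ 1 * δ := by gcongr
              _ = δ := one_mul _
        have h1 : ENNReal.ofReal (c * (ρ / 4) ^ d) ≤ ENNReal.ofReal (k * (2 * 1 * (2 * δ) ^ d)) := by
          calc ENNReal.ofReal (c * (ρ / 4) ^ d) ≤ volume (TH539.capSet (ρ / 4) e0) :=
                hcap _ _ (by positivity) he0
            _ ≤ volume (⋃ x ∈ X, cyl δ (Icc (-1) 1) x 0) := measure_mono hsub
            _ ≤ ∑ x ∈ X, volume (cyl δ (Icc (-1) 1) x 0) := measure_biUnion_finset_le _ _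
            _ ≤ ∑ x ∈ X, ENNReal.ofReal (2 * 1 * (2 * δ) ^ d) :=
                Finset.sum_le_sum (fun x hx => volume_cyl_le hδ one_pos (hX1 x hx).1)
            _ = _ := by
                rw [Finset.sum_const, hXk, nsmul_eq_mul,
                  ENNReal.ofReal_mul (p := (k:ℝ)) (by positivity), ENNReal.ofReal_natCast]
        have h2 := (ENNReal.ofReal_le_ofReal_iff (by positivity)).1 h1
        have h3 : (k:ℝ) + 1 ≤ m := by exact_mod_cast hk
        have h4 : (k:ℝ) < c * (1 / 4) ^ d / (2 * 4 ^ d) * (ρ / δ) ^ d := by linarith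
        have h5 : c * (1 / 4) ^ d / (2 * 4 ^ d) * (ρ / δ) ^ d * (2 * 1 * (2 * δ) ^ d)
            = c * (ρ / 4) ^ d / 2 ^ d := by
          rw [div_pow, div_pow, mul_pow, div_pow]
          have : (4:ℝ) ^ d = 2 ^ d * 2 ^ d := by rw [← mul_pow]; norm_num
          rw [this]
          field_simp
          simp
        have h6 : (k:ℝ) * (2 * 1 * (2 * δ) ^ d) < c * (ρ / 4) ^ d / 2 ^ d := by
          rw [← h5]
          exact mul_lt_mul_of_pos_right h4 (by positivity)
        have h7 : c * (ρ / 4) ^ d / 2 ^ d ≤ c * (ρ / 4) ^ d := by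
          apply div_le_self (by positivity)
          exact one_le_pow₀ (by norm_num)
        linarith
      obtain ⟨y, hy1, hy2, hy3⟩ := hex
      have hyX : y ∉ X := by
        intro h
        have := hy3 y h
        rw [sub_self, norm_zero] at this
        linarith
      refine ⟨insert y X, by rw [Finset.card_insert_of_notMem hyX, hXk], ?_, ?_⟩
      · intro x hx
        rcases Finset.mem_insert.1 hx with rfl | hx
        · exact ⟨hy1, hy2⟩
        · exact hX1 x hx
      · intro x hx x' hx' hne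
        rcases Finset.mem_insert.1 hx with h1 | hx
        · rcases Finset.mem_insert.1 hx' with h2 | hx'
          · exact absurd (h1.trans h2.symm) hne
          · rw [h1]; exact hy3 x' hx'
        · rcases Finset.mem_insert.1 hx' with h2 | hx'
          · rw [h2, norm_sub_rev]; exact hy3 x hx
          · exact hX2 x hx x' hx' hne
  obtain ⟨X, hXm, hX1, hX2⟩ := key m le_rfl
  have e := X.equivFinOfCardEq hXm
  refine ⟨fun j => (e.symm j : E (d + 1)), fun j => (hX1 _ (e.symm j).2).1,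
    fun j => (hX1 _ (e.symm j).2).2, fun j j' hne => hX2 _ (e.symm j).2 _ (e.symm j').2 ?_⟩
  intro h
  exact hne (e.symm.injective (Subtype.ext h))

/-- **Bundles.** -/
theorem bundle (d : ℕ) (hd : 1 ≤ d) {q : ℝ} (hq : 0 < q) : ∃ K : ℝ, 0 < K ∧
    ∀ (C ρ : ℝ), 0 < C → 0 < ρ → ρ ≤ 1 →
    ∀ (ι : Type) [Fintype ι] (a e : ι → E (d + 1)), (∀ i, ‖e i‖ = 1) →
    (∀ i j, i ≠ j → ρ ≤ ‖e i - e j‖) → ∀ b : E (d + 1) → E (d + 1),
    (∀ i, ∀ x : E (d + 1), ‖x‖ = 1 → ‖x - e i‖ ≤ ρ / 8 → ‖b x - a i‖ ≤ ρ) →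
    ∀ δ0 : ℝ, 0 < δ0 →
    (∀ δ : ℝ, 0 < δ → δ < 1 → δ ≤ δ0 → ∀ (κ : Type) [Fintype κ] (f : κ → E (d + 1)),
      (∀ i, ‖f i‖ = 1) → (∀ i j, i ≠ j → δ ≤ ‖f i - f j‖) →
      ∫⁻ y, Fs δ I2 f (fun i => (δ / (3 * ρ)) • b (f i)) y ^ q ≤
        ENNReal.ofReal (C * (δ ^ d * (Fintype.card κ : ℝ) ^ (q - 1 / d)))) →
    ∫⁻ y, Fs ρ I2 e a y ^ q ≤
      ENNReal.ofReal (K * C * (ρ ^ d * (Fintype.card ι : ℝ) ^ (q - 1 / d))) := by
  have hd0 : (0:ℝ) < d := by exact_mod_cast hd
  obtain ⟨c, hc, hb⟩ := exists_bundle d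
  refine ⟨3 ^ (d + 1) * (c / 2) ^ (-(1 / (d:ℝ))), by positivity, ?_⟩
  intro C ρ hC hρ hρ1 ι _ a e he hsep b hba δ0 hδ0 hyp
  -- the scale
  obtain ⟨δ, hδ, hδ1, hδ2, hδ3, hδ4⟩ : ∃ δ : ℝ, 0 < δ ∧ δ ≤ δ0 ∧ δ ≤ ρ / 8 ∧ δ < 1 ∧
      1 ≤ c * (ρ / δ) ^ d := by
    have h1 : 0 < ρ * c ^ (1 / (d:ℝ)) := by positivity
    refine ⟨min (min δ0 (ρ / 8)) (ρ * c ^ (1 / (d:ℝ))), by positivity,
      (min_le_left _ _).trans (min_le_left _ _), (min_le_left _ _).trans (min_le_right _ _), ?_, ?_⟩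
    · exact lt_of_le_of_lt ((min_le_left _ _).trans (min_le_right _ _)) (by linarith)
    · set δ := min (min δ0 (ρ / 8)) (ρ * c ^ (1 / (d:ℝ))) with hδd
      have hδp : 0 < δ := by positivity
      have h2 : δ ≤ ρ * c ^ (1 / (d:ℝ)) := min_le_right _ _
      have h3 : (δ / ρ) ^ d ≤ c := by
        calc (δ / ρ) ^ d ≤ (c ^ (1 / (d:ℝ))) ^ d := by
              gcongr
              rw [div_le_iff₀ hρ]
              linarith
          _ = c := by
              rw [← Real.rpow_natCast, ← Real.rpow_mul hc.le, one_div_mul_cancel hd0.ne',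
                Real.rpow_one]
      have h4 : (ρ / δ) ^ d * (δ / ρ) ^ d = 1 := by
        rw [← mul_pow]
        have : ρ / δ * (δ / ρ) = 1 := by field_simp
        rw [this, one_pow]
      calc (1:ℝ) = (ρ / δ) ^ d * (δ / ρ) ^ d := h4.symm
        _ ≤ (ρ / δ) ^ d * c := by gcongr
        _ = _ := mul_comm _ _
  set X : ℝ := c * (ρ / δ) ^ d with hX
  set m : ℕ := ⌊X⌋₊ with hm
  have hm1 : 1 ≤ m := Nat.le_floor (by exact_mod_cast hδ4)
  have hmX : (m:ℝ) ≤ X := Nat.floor_le (by linarith)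
  have hmX2 : X / 2 ≤ m := by
    have h1 := Nat.lt_floor_add_one X
    rw [← hm] at h1
    have h2 : (1:ℝ) ≤ m := by exact_mod_cast hm1
    linarith
  have hm0 : (0:ℝ) < m := by
    have h2 : (1:ℝ) ≤ m := by exact_mod_cast hm1
    linarith
  choose f hf1 hf2 hf3 using fun i => hb δ ρ hδ (by linarith) hρ1 (e i) (he i) m hmX
  set r : ℝ := δ / (3 * ρ) with hr
  have hr0 : 0 < r := by positivity
  have hr1 : r ≤ 1 / 24 := by
    rw [hr, div_le_iff₀ (by positivity)]
    linarith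
  have h1 := hyp δ hδ hδ3 hδ1 (ι × Fin m) (fun p => f p.1 p.2) (fun p => hf1 p.1 p.2) (by
    rintro ⟨i, j⟩ ⟨i', j'⟩ hne
    by_cases hi : i = i'
    · subst hi
      exact hf3 i j j' (fun h => hne (by rw [h]))
    · have h2 := hsep i i' hi
      have h3 : ‖e i - e i'‖ ≤ ‖f i j - e i‖ + ‖f i j - f i' j'‖ + ‖f i' j' - e i'‖ := by
        have e1 : e i - e i' = -(f i j - e i) + (f i j - f i' j') + (f i' j' - e i') := by abel
        rw [e1]
        refine (norm_add_le _ _).trans ?_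
        refine add_le_add ((norm_add_le _ _).trans ?_) le_rfl
        rw [norm_neg]
      have h4 := hf2 i j
      have h5 := hf2 i' j'
      show δ ≤ ‖f i j - f i' j'‖
      linarith)
  -- the inclusion
  have hincl : ∀ i j (y : E (d + 1)), y ∈ cyl ρ I2 (e i) (a i) →
      r • y ∈ cyl δ I2 (f i j) (r • b (f i j)) := by
    rintro i j y ⟨hy1, hy2⟩
    set s : ℝ := inner ℝ (y - a i) (e i) with hs
    set w : E (d + 1) := (y - a i) - s • e i with hw
    have hs1 : |s| ≤ 1 / 2 := abs_le.2 hy1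
    have hbf := hba i (f i j) (hf1 i j) (hf2 i j)
    have e1 : r • y - r • b (f i j) = r • (s • e i + w - (b (f i j) - a i)) := by
      rw [hw, ← smul_sub]
      congr 1
      abel
    have hdif : ‖r • y - r • b (f i j) - (r * s) • f i j‖ ≤ δ := by
      have e2 : r • y - r • b (f i j) - (r * s) • f i j
          = r • (s • (e i - f i j) + w - (b (f i j) - a i)) := by
        rw [e1, ← smul_smul, ← smul_sub]
        congr 1
        rw [smul_sub]
        abel
      rw [e2, norm_smul, Real.norm_of_nonneg hr0.le]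
      have h2 : ‖s • (e i - f i j) + w - (b (f i j) - a i)‖ ≤ 3 * ρ := by
        refine (norm_sub_le _ _).trans ?_
        have h3 : ‖s • (e i - f i j) + w‖ ≤ ρ + ρ := by
          refine (norm_add_le _ _).trans (add_le_add ?_ hy2)
          rw [norm_smul, Real.norm_eq_abs, norm_sub_rev]
          have := hf2 i j
          nlinarith [norm_nonneg (f i j - e i), abs_nonneg s]
        linarith
      calc r * ‖s • (e i - f i j) + w - (b (f i j) - a i)‖ ≤ r * (3 * ρ) := by gcongr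
        _ = δ := by rw [hr]; field_simp
    refine ⟨?_, (perp_le (hf1 i j) _ _).trans hdif⟩
    have h2 : |(inner ℝ (r • y - r • b (f i j)) (f i j) : ℝ)| ≤ 1 / 2 := by
      refine (abs_real_inner_le_norm _ _).trans ?_
      rw [hf1, mul_one]
      have e3 : r • y - r • b (f i j) = (r • y - r • b (f i j) - (r * s) • f i j)
          + (r * s) • f i j := by abel
      rw [e3]
      refine (norm_add_le _ _).trans ?_
      rw [norm_smul, hf1, mul_one, Real.norm_eq_abs, abs_mul, abs_of_pos hr0]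
      nlinarith [abs_nonneg s]
    exact abs_le.1 h2
  have hle : ∀ y, (m:ℝ≥0∞) * Fs ρ I2 e a y ≤
      Fs δ I2 (fun p : ι × Fin m => f p.1 p.2) (fun p => r • b (f p.1 p.2)) (r • y) := by
    intro y
    unfold Fs
    rw [Fintype.sum_prod_type, Finset.mul_sum]
    apply Finset.sum_le_sum
    intro i _
    by_cases hy : y ∈ cyl ρ I2 (e i) (a i)
    · rw [indicator_of_mem hy, mul_one]
      calc (m:ℝ≥0∞) = ∑ j : Fin m, (1:ℝ≥0∞) := by simp
        _ ≤ _ := by
            apply Finset.sum_le_sum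
            intro j _
            rw [indicator_of_mem (hincl i j y hy)]
    · rw [indicator_of_notMem hy, mul_zero]
      exact zero_le
  -- change of variables
  set G := Fs δ I2 (fun p : ι × Fin m => f p.1 p.2) (fun p => r • b (f p.1 p.2)) with hG
  have hGm : Measurable G := measurable_Fs _ measurableSet_Icc _ _
  have hcv : ∫⁻ y, G (r • y) ^ q = ENNReal.ofReal ((r ^ (d + 1))⁻¹) * ∫⁻ y, G y ^ q := by
    have h2 := Measure.map_addHaar_smul (volume : Measure (E (d + 1))) hr0.ne'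
    rw [finrank_euclideanSpace_fin] at h2
    have h3 : ∫⁻ y, G (r • y) ^ q
        = ∫⁻ y, G y ^ q ∂(Measure.map (fun w : E (d + 1) => r • w) volume) := by
      rw [lintegral_map]
      · exact hGm.pow_const _
      · exact measurable_const_smul _
    rw [h3, h2, lintegral_smul_measure, smul_eq_mul, abs_of_pos (by positivity)]
  have hNn : (0:ℝ) ≤ Fintype.card ι := Nat.cast_nonneg _
  set N : ℝ := (Fintype.card ι : ℝ) with hN
  have h2 : ENNReal.ofReal ((m:ℝ) ^ q) * ∫⁻ y, Fs ρ I2 e a y ^ q ≤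
      ENNReal.ofReal ((r ^ (d + 1))⁻¹ * (C * (δ ^ d * (N * m) ^ (q - 1 / d)))) := by
    calc ENNReal.ofReal ((m:ℝ) ^ q) * ∫⁻ y, Fs ρ I2 e a y ^ q
        = ∫⁻ y, ((m:ℝ≥0∞) * Fs ρ I2 e a y) ^ q := by
          rw [← lintegral_const_mul' _ _ ENNReal.ofReal_ne_top]
          apply lintegral_congr
          intro y
          rw [ENNReal.mul_rpow_of_nonneg _ _ hq.le, ← ENNReal.ofReal_rpow_of_nonneg hm0.le hq.le,
            ENNReal.ofReal_natCast]
      _ ≤ ∫⁻ y, G (r • y) ^ q := lintegral_mono (fun y => ENNReal.rpow_le_rpow (hle y) hq.le)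
      _ ≤ ENNReal.ofReal ((r ^ (d + 1))⁻¹) *
          ENNReal.ofReal (C * (δ ^ d * (Fintype.card (ι × Fin m) : ℝ) ^ (q - 1 / d))) := by
          rw [hcv]
          gcongr
      _ = _ := by
          rw [← ENNReal.ofReal_mul (by positivity), Fintype.card_prod, Fintype.card_fin]
          push_cast
          rfl
  have hmq : 0 < (m:ℝ) ^ q := by positivity
  calc ∫⁻ y, Fs ρ I2 e a y ^ q
      = ENNReal.ofReal (((m:ℝ) ^ q)⁻¹) * (ENNReal.ofReal ((m:ℝ) ^ q) * ∫⁻ y, Fs ρ I2 e a y ^ q) := by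
        rw [← mul_assoc, ← ENNReal.ofReal_mul (by positivity), inv_mul_cancel₀ hmq.ne',
          ENNReal.ofReal_one, one_mul]
    _ ≤ ENNReal.ofReal (((m:ℝ) ^ q)⁻¹) *
        ENNReal.ofReal ((r ^ (d + 1))⁻¹ * (C * (δ ^ d * (N * m) ^ (q - 1 / d)))) := by gcongr
    _ ≤ _ := by
        rw [← ENNReal.ofReal_mul (by positivity)]
        apply ENNReal.ofReal_le_ofReal
        have e1 : (N * m) ^ (q - 1 / (d:ℝ)) = N ^ (q - 1 / (d:ℝ)) * (m ^ q * m ^ (-(1 / (d:ℝ)))) := by
          rw [Real.mul_rpow hNn hm0.le, ← Real.rpow_add hm0]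
          congr 2
        have e2 : (m:ℝ) ^ (-(1 / (d:ℝ))) ≤ (c / 2) ^ (-(1 / (d:ℝ))) * (δ / ρ) := by
          have h3 : c / 2 * (ρ / δ) ^ d ≤ m := by
            refine le_trans (le_of_eq ?_) hmX2
            rw [hX]; ring
          calc (m:ℝ) ^ (-(1 / (d:ℝ))) ≤ (c / 2 * (ρ / δ) ^ d) ^ (-(1 / (d:ℝ))) :=
                Real.rpow_le_rpow_of_nonpos (by positivity) h3 (by
                  have : 0 < 1 / (d:ℝ) := by positivity
                  linarith)
            _ = (c / 2) ^ (-(1 / (d:ℝ))) * (δ / ρ) := by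
                rw [Real.mul_rpow (by positivity) (by positivity)]
                congr 1
                rw [← Real.rpow_natCast, ← Real.rpow_mul (by positivity)]
                have : (d:ℝ) * -(1 / (d:ℝ)) = -1 := by field_simp
                rw [this, Real.rpow_neg_one, inv_div]
        have e3 : (r ^ (d + 1))⁻¹ * δ ^ d * (δ / ρ) = 3 ^ (d + 1) * ρ ^ d := by
          rw [hr, div_pow, mul_pow, inv_div]
          field_simp
          ring
        calc ((m:ℝ) ^ q)⁻¹ * ((r ^ (d + 1))⁻¹ * (C * (δ ^ d * (N * m) ^ (q - 1 / (d:ℝ)))))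
            = (r ^ (d + 1))⁻¹ * δ ^ d * C * N ^ (q - 1 / (d:ℝ)) * (m:ℝ) ^ (-(1 / (d:ℝ))) := by
              rw [e1]
              field_simp
          _ ≤ (r ^ (d + 1))⁻¹ * δ ^ d * C * N ^ (q - 1 / (d:ℝ)) *
              ((c / 2) ^ (-(1 / (d:ℝ))) * (δ / ρ)) := by gcongr
          _ = ((r ^ (d + 1))⁻¹ * δ ^ d * (δ / ρ)) * (C * N ^ (q - 1 / (d:ℝ)) *
              (c / 2) ^ (-(1 / (d:ℝ)))) := by ring
          _ = _ := by rw [e3]; ring

end Pool.Agent.Helper37.Kq
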