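import Pool.Agent.Helper37.Kq.Core
import Pool.Agent.Helper37.Kp.Main
import Pool.Graph.R_seed8.Y254.Main

set_option autoImplicit false
set_option linter.unusedSectionVars false

/-!
Reduction to bounded families.
-/

open MeasureTheory Set Filter Topology ENNReal NNReal Metric

namespace Pool.Agent.Helper37.Kq

open Pool.Agent.H742R2.Kk
open Pool.Agent.K3h46.TMC
open Pool.Agent.Helper37.Kp (perp_le)

theorem Fs_eq_mult {n : ℕ} {ι : Type} [Fintype ι] (δ : ℝ) (e a : ι → E n) (y : E n) :
    Fs δ I2 e a y = Pool.Agent.Y254.mult (fun i => Pool.Agent.Y254.tube δ (a i) (e i)) y := by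
  unfold Fs Pool.Agent.Y254.mult
  apply Finset.sum_congr rfl
  intro i _
  by_cases h : y ∈ cyl δ I2 (e i) (a i)
  · have h' : y ∈ Pool.Agent.Y254.tube δ (a i) (e i) := ⟨abs_le.2 h.1, h.2⟩
    rw [indicator_of_mem h, indicator_of_mem h']
    rfl
  · have h' : y ∉ Pool.Agent.Y254.tube δ (a i) (e i) := fun h' => h ⟨abs_le.1 h'.1, h'.2⟩
    rw [indicator_of_notMem h, indicator_of_notMem h']

theorem localise {d : ℕ} {q C δ : ℝ} (hd : 1 ≤ d) (hq : 1 + 1 / (d:ℝ) ≤ q) (hC : 0 < C)
    (hδ : 0 < δ) (hδ1 : δ < 1)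
    (h : ∀ (ι : Type) [Fintype ι] (a e : ι → E (d + 1)), (∀ i, ‖e i‖ = 1) →
      (∀ i j, i ≠ j → δ ≤ ‖e i - e j‖) → (∀ i, ‖a i‖ ≤ Real.sqrt ((d + 1 : ℕ) : ℝ) * 2) →
      ∫⁻ y, Fs δ I2 e a y ^ q ≤
        ENNReal.ofReal (C * (δ ^ d * (Fintype.card ι : ℝ) ^ (q - 1 / d)))) :
    ∀ (ι : Type) [Fintype ι] (a e : ι → E (d + 1)), (∀ i, ‖e i‖ = 1) →
      (∀ i j, i ≠ j → δ ≤ ‖e i - e j‖) →
      ∫⁻ y, Fs δ I2 e a y ^ q ≤
        ENNReal.ofReal ((2 * 3 ^ (d + 1)) ^ q * C *
          (δ ^ d * (Fintype.card ι : ℝ) ^ (q - 1 / d))) := by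
  have hd0 : (0:ℝ) < d := by exact_mod_cast hd
  have hdi : 0 < 1 / (d:ℝ) := by positivity
  have hq0 : 0 < q := by linarith
  intro ι _ a e he hsep
  classical
  set T : ι → Set (E (d + 1)) := fun i => Pool.Agent.Y254.tube δ (a i) (e i) with hT
  set κ : ι → (Fin (d + 1) → ℤ) := fun i => Pool.Agent.Y254.cell 2 (a i) with hκ
  have hconc : ∀ x ∈ (univ : Set (E (d + 1))),
      Pool.Agent.Y254.mult T x ^ q ≤ ENNReal.ofReal ((2 * 3 ^ (d + 1)) ^ q) *
      ∑ c ∈ Finset.univ.image κ, Pool.Agent.Y254.pmult T κ c x ^ q := by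
    intro x _
    set S : Finset (Fin (d + 1) → ℤ) := Fintype.piFinset fun c =>
      Finset.Icc (Pool.Agent.Y254.cell 2 x c - 1) (Pool.Agent.Y254.cell 2 x c + 1) with hS
    have hScard : S.card = 3 ^ (d + 1) := by
      rw [hS, Fintype.card_piFinset]
      have : ∀ c : Fin (d + 1), (Finset.Icc (Pool.Agent.Y254.cell 2 x c - 1)
          (Pool.Agent.Y254.cell 2 x c + 1)).card = 3 := by
        intro c
        rw [Int.card_Icc]
        have e1 : Pool.Agent.Y254.cell 2 x c + 1 + 1 - (Pool.Agent.Y254.cell 2 x c - 1) = 3 := by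
          ring
        rw [e1]
        rfl
      simp only [this, Finset.prod_const, Finset.card_univ, Fintype.card_fin]
    have h1 : Pool.Agent.Y254.mult T x ≤
        2 * ∑ i, if κ i ∈ S then (T i).indicator (1 : E (d + 1) → ℝ≥0∞) x else 0 := by
      have h2 : Pool.Agent.Y254.mult T x =
          ∑ i, if κ i ∈ S then (T i).indicator (1 : E (d + 1) → ℝ≥0∞) x else 0 := by
        unfold Pool.Agent.Y254.mult
        apply Finset.sum_congr rfl
        intro i _
        by_cases hx : x ∈ T i
        · have h3 : κ i ∈ S := by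
            apply Pool.Agent.Y254.cell_near (by norm_num)
            obtain ⟨h4, h5⟩ := hx
            have e1 : x - a i = ((x - a i) - (inner ℝ (x - a i) (e i) : ℝ) • e i)
                + (inner ℝ (x - a i) (e i) : ℝ) • e i := by abel
            rw [e1]
            refine (norm_add_le _ _).trans_lt ?_
            rw [norm_smul, he, mul_one, Real.norm_eq_abs]
            linarith
          rw [if_pos h3]
        · rw [indicator_of_notMem hx]
          simp
      rw [h2]
      refine le_trans (le_of_eq (one_mul _).symm) ?_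
      gcongr
      norm_num
    have h2 := Pool.Agent.Y254.conc h1 hq0
    rw [hScard] at h2
    refine h2.trans (le_of_eq ?_)
    congr 1
    rw [← ENNReal.ofReal_rpow_of_nonneg (by positivity) hq0.le,
      ENNReal.ofReal_mul (by norm_num), ENNReal.ofReal_pow (by norm_num)]
    push_cast
    norm_num
  have hβ : 1 ≤ q - 1 / (d:ℝ) := by linarith
  have h1 := Pool.Agent.Y254.parts_int (n := d + 1) (a := a) (e := e) κ (q := q)
    (β := q - 1 / d) (A := C) (Q := (2 * 3 ^ (d + 1)) ^ q) (B := Fintype.card ι)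
    (by positivity) hC.le hβ hδ hconc MeasurableSet.univ (by
      intro c hc
      obtain ⟨i0, _, hi0⟩ := Finset.mem_image.1 hc
      have h2 := h {i // κ i = c} (fun i => a i - a i0) (fun i => e i) (fun i => he i)
        (fun i j hij => hsep i j (fun h => hij (Subtype.ext h))) (by
          rintro ⟨i, hi⟩
          exact Pool.Agent.Y254.cell_close (by norm_num) (hi.trans hi0.symm))
      have h3 : ∫⁻ y, Fs δ I2 (fun i : {i // κ i = c} => e i) (fun i => a i - a i0) y ^ q
          = ∫⁻ x, Pool.Agent.Y254.mult (fun i : {i // κ i = c} =>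
            Pool.Agent.Y254.tube δ (a i) (e i)) x ^ q := by
        have h4 : ∀ x, Pool.Agent.Y254.mult (fun i : {i // κ i = c} =>
            Pool.Agent.Y254.tube δ (a i) (e i)) x
            = Fs δ I2 (fun i : {i // κ i = c} => e i) (fun i => a i - a i0) (x - a i0) := by
          intro x
          rw [← Fs_eq_mult, ← Pool.Agent.Helper37.Kp.Fs_translate]
          congr 1
          funext i
          abel
        simp_rw [h4]
        exact (lintegral_sub_right_eq_self
          (fun y => Fs δ I2 (fun i : {i // κ i = c} => e i) (fun i => a i - a i0) y ^ q) (a i0)).symm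
      rw [h3] at h2
      rw [Nat.add_sub_cancel]
      exact h2) (by
      intro c _
      have : Fintype.card {i // κ i = c} ≤ Fintype.card ι := Fintype.card_subtype_le _
      exact_mod_cast this)
  rw [Measure.restrict_univ, Nat.add_sub_cancel] at h1
  simp_rw [Fs_eq_mult]
  refine h1.trans (le_of_eq ?_)
  congr 1
  rcases Nat.eq_zero_or_pos (Fintype.card ι) with h0 | h0
  · rw [h0]
    simp only [Nat.cast_zero, mul_zero]
    rw [Real.zero_rpow (by linarith)]
    simp
  · have hN : (0:ℝ) < Fintype.card ι := Nat.cast_pos.2 h0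
    have e1 := Real.rpow_add hN (q - 1 / d - 1) 1
    rw [sub_add_cancel, Real.rpow_one] at e1
    rw [e1]

end Pool.Agent.Helper37.Kq
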