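import Pool.Agent.Helper37.Kq.Loc
import Pool.Graph.R_pool_sql_team_seeded_843ab51a.Results.MP_850839_an.LossRemoval

set_option autoImplicit false
set_option linter.unusedSectionVars false

/-!
From polynomial families to all families.
-/

open MeasureTheory Set Filter Topology ENNReal NNReal Metric

namespace Pool.Agent.Helper37.Kq

open Pool.Agent.H742R2.Kk
open Pool.Agent.K3h46.TMC

theorem pmap_smul {n : ℕ} (r : ℝ) (P : Fin n → MvPolynomial (Fin n) ℝ) (x : E n) :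
    pmap (fun j => MvPolynomial.C r * P j) x = r • pmap P x := by
  ext j
  unfold pmap
  simp

theorem exists_coeff_bound {n : ℕ} (P : Fin n → MvPolynomial (Fin n) ℝ) :
    ∃ B : ℝ, 0 ≤ B ∧ ∀ j s, |(P j).coeff s| ≤ B := by
  refine ⟨∑ j, ∑ s ∈ (P j).support, |(P j).coeff s|,
    Finset.sum_nonneg (fun j _ => Finset.sum_nonneg (fun s _ => abs_nonneg _)), ?_⟩
  intro j s
  have h1 : |(P j).coeff s| ≤ ∑ s ∈ (P j).support, |(P j).coeff s| := by
    by_cases hs : s ∈ (P j).support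
    · exact Finset.single_le_sum (f := fun s => |(P j).coeff s|) (fun _ _ => abs_nonneg _) hs
    · rw [MvPolynomial.notMem_support_iff.1 hs, abs_zero]
      exact Finset.sum_nonneg (fun s _ => abs_nonneg _)
  exact h1.trans (Finset.single_le_sum (f := fun j => ∑ s ∈ (P j).support, |(P j).coeff s|)
    (fun j _ => Finset.sum_nonneg (fun s _ => abs_nonneg _)) (Finset.mem_univ j))

theorem analytic_pmap {n : ℕ} (P : Fin n → MvPolynomial (Fin n) ℝ) :
    AnalyticOnNhd ℝ (pmap P) univ := by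
  intro x _
  have h1 : ∀ j, AnalyticAt ℝ (fun x : E n => MvPolynomial.eval (fun l => x l) (P j)) x := by
    intro j
    have h2 := AnalyticAt.aeval_mvPolynomial (𝕜 := ℝ) (A := ℝ) (B := ℝ)
      (f := fun (x : E n) (l : Fin n) => x l) (z := x) (fun l =>
        (EuclideanSpace.proj (𝕜 := ℝ) l).analyticAt x) (P j)
    simpa [MvPolynomial.aeval_eq_eval] using h2
  have h3 : AnalyticAt ℝ (fun x : E n => fun j => MvPolynomial.eval (fun l => x l) (P j)) x :=
    AnalyticAt.pi h1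
  exact ((PiLp.continuousLinearEquiv 2 ℝ (fun _ : Fin n => ℝ)).symm.toContinuousLinearMap.analyticAt
    _).comp h3

theorem deriv_bound {n : ℕ} (P : Fin n → MvPolynomial (Fin n) ℝ) (K : ℕ) :
    ∃ B : ℝ, 0 ≤ B ∧ ∀ j ≤ K, ∀ x : E n, ‖x‖ ≤ 2 → ‖iteratedFDeriv ℝ j (pmap P) x‖ ≤ B := by
  have hc : ContDiff ℝ ⊤ (pmap P) := (analytic_pmap P).contDiff
  have h1 : ∀ j : ℕ, ∃ B : ℝ, 0 ≤ B ∧ ∀ x : E n, ‖x‖ ≤ 2 → ‖iteratedFDeriv ℝ j (pmap P) x‖ ≤ B := by
    intro j
    have hcont : Continuous (fun x => ‖iteratedFDeriv ℝ j (pmap P) x‖) :=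
      (hc.continuous_iteratedFDeriv (by exact_mod_cast le_top)).norm
    obtain ⟨B, hB⟩ := (isCompact_closedBall (0 : E n) 2).exists_bound_of_continuousOn
      hcont.continuousOn
    refine ⟨max B 0, le_max_right _ _, ?_⟩
    intro x hx
    have := hB x (by rw [mem_closedBall, dist_zero_right]; exact hx)
    rw [norm_norm] at this
    exact this.trans (le_max_left _ _)
  choose B hB0 hB using h1
  refine ⟨∑ j ∈ Finset.range (K + 1), B j, Finset.sum_nonneg (fun j _ => hB0 j), ?_⟩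
  intro j hj x hx
  refine (hB j x hx).trans ?_
  exact Finset.single_le_sum (f := B) (fun j _ => hB0 j) (Finset.mem_range.2 (by omega))

/-- Norms and integrals. -/
theorem int_of_norm {d : ℕ} {q C δ N : ℝ} (hd : 1 ≤ d) (hq : 0 < q) (hC : 0 ≤ C) (hδ : 0 < δ)
    (hN : 0 ≤ N) {Y : ℝ≥0∞} (h : Y ^ (1 / q) ≤ ENNReal.ofReal (C * δ ^ ((((d + 1 : ℕ) : ℝ) - 1) / q) *
        N ^ (1 - 1 / (q * (((d + 1 : ℕ) : ℝ) - 1))))) :
    Y ≤ ENNReal.ofReal (C ^ q * (δ ^ d * N ^ (q - 1 / d))) := by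
  have hd0 : (0:ℝ) < d := by exact_mod_cast hd
  have h2 := ENNReal.rpow_le_rpow h hq.le
  have e1 : (((d + 1 : ℕ) : ℝ) - 1) = d := by push_cast; ring
  rw [← ENNReal.rpow_mul, one_div_mul_cancel hq.ne', ENNReal.rpow_one,
    ENNReal.ofReal_rpow_of_nonneg (by positivity) hq.le, e1] at h2
  refine h2.trans (le_of_eq ?_)
  congr 1
  rw [Real.mul_rpow (by positivity) (by positivity), Real.mul_rpow (by positivity) (by positivity),
    ← Real.rpow_mul hδ.le, ← Real.rpow_mul (by positivity), div_mul_cancel₀ _ hq.ne',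
    Real.rpow_natCast, mul_assoc]
  congr 3
  field_simp

theorem norm_of_int {d : ℕ} {q C δ N : ℝ} (hd : 1 ≤ d) (hq : 0 < q) (hC : 0 ≤ C) (hδ : 0 < δ)
    (hN : 0 ≤ N) {Y : ℝ≥0∞} (h : Y ≤ ENNReal.ofReal (C * (δ ^ d * N ^ (q - 1 / d)))) :
    Y ^ (1 / q) ≤ ENNReal.ofReal (C ^ (1 / q) * δ ^ ((((d + 1 : ℕ) : ℝ) - 1) / q) *
        N ^ (1 - 1 / (q * (((d + 1 : ℕ) : ℝ) - 1)))) := by
  have hd0 : (0:ℝ) < d := by exact_mod_cast hd
  have e1 : (((d + 1 : ℕ) : ℝ) - 1) = d := by push_cast; ring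
  refine (ENNReal.rpow_le_rpow h (by positivity)).trans (le_of_eq ?_)
  rw [ENNReal.ofReal_rpow_of_nonneg (by positivity) (by positivity), e1]
  congr 1
  rw [Real.mul_rpow (by positivity) (by positivity), Real.mul_rpow (by positivity) (by positivity),
    ← Real.rpow_mul hN, ← Real.rpow_natCast, ← Real.rpow_mul hδ.le, mul_assoc]
  congr 3
  · ring
  · field_simp

end Pool.Agent.Helper37.Kq
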