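import Pool.Graph.R_pool_sql_team_seeded_5cf16337.K3h46.TMC.Final

set_option autoImplicit false
set_option linter.unusedSectionVars false

/-!
Polynomial maps that are almost constant on given caps.
-/

open MeasureTheory Set Filter Topology Metric

namespace Pool.Agent.Helper37.Kq

open Pool.Agent.H742R2.Kk
open Pool.Agent.K3h46.TMC

/-- `(1 - x) ^ n ≤ 1 / (1 + n x)`. -/
theorem pow_le_inv {x : ℝ} (hx0 : 0 ≤ x) (hx1 : x ≤ 1) (n : ℕ) :
    (1 - x) ^ n ≤ 1 / (1 + n * x) := by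
  have h1 : 1 + n * x ≤ (1 + x) ^ n := one_add_mul_le_pow (by linarith) n
  have h2 : (1 - x) ^ n * (1 + x) ^ n ≤ 1 := by
    rw [← mul_pow]
    apply pow_le_one₀
    · nlinarith
    · nlinarith
  have h3 : 0 < 1 + n * x := by positivity
  rw [le_div_iff₀ h3]
  calc (1 - x) ^ n * (1 + n * x) ≤ (1 - x) ^ n * (1 + x) ^ n :=
        mul_le_mul_of_nonneg_left h1 (pow_nonneg (by linarith) n)
    _ ≤ 1 := h2

theorem exists_least {P : ℕ → Prop} (h : ∃ j, P j) : ∃ j0, P j0 ∧ ∀ j, P j → j0 ≤ j := by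
  classical
  exact ⟨Nat.find h, Nat.find_spec h, fun j hj => Nat.find_min' h hj⟩

/-- A power just below a target. -/
theorem exists_k1 {η β : ℝ} (hη : 0 < η) (hη1 : η ≤ 1 / 2) (hβ : 0 < β) (hβ1 : β < 1) :
    ∃ k : ℕ, 1 ≤ k ∧ (1 - η) ^ k ≤ β ∧ β / 2 ≤ (1 - η) ^ k ∧ (k : ℝ) ≤ 1 + 1 / (β * η) := by
  have hex : ∃ k : ℕ, (1 - η) ^ k ≤ β := by
    obtain ⟨k, hk⟩ := exists_pow_lt_of_lt_one hβ (by linarith : 1 - η < 1)
    exact ⟨k, hk.le⟩
  obtain ⟨k, hk, hmin⟩ := exists_least hex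
  have hk1 : 1 ≤ k := by
    rcases Nat.eq_zero_or_pos k with h | h
    · rw [h, pow_zero] at hk
      linarith
    · exact h
  obtain ⟨j, rfl⟩ : ∃ j, k = j + 1 := ⟨k - 1, by omega⟩
  have hj : β < (1 - η) ^ j := by
    by_contra h
    push Not at h
    have := hmin j h
    omega
  refine ⟨j + 1, hk1, hk, ?_, ?_⟩
  · rw [pow_succ]
    nlinarith
  · have h1 := pow_le_inv hη.le (by linarith) j
    have h2 : β < 1 / (1 + j * η) := hj.trans_le h1
    have h3 : 0 < 1 + (j:ℝ) * η := by positivity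
    rw [lt_div_iff₀ h3] at h2
    have h4 : (j:ℝ) ≤ 1 / (β * η) := by
      rw [le_div_iff₀ (by positivity)]
      nlinarith
    push_cast
    linarith

/-- The value of the approximate indicator. -/
theorem val_near {η β u : ℝ} (_hη : 0 < η) (hη1 : η ≤ 1 / 2) (hβ : 0 < β)
    {k1 k2 : ℕ} (hk1 : β / 2 ≤ (1 - η) ^ k1) (hk2 : β⁻¹ ^ 2 ≤ k2) (hu0 : 1 - η ≤ u) (hu1 : u ≤ 1) :
    |1 - (1 - u ^ k1) ^ k2 - 1| ≤ 2 * β := by
  have hu : 0 ≤ u := by linarith
  have hv1 : u ^ k1 ≤ 1 := pow_le_one₀ hu hu1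
  have hv0 : 0 ≤ u ^ k1 := by positivity
  have hv : β / 2 ≤ u ^ k1 := hk1.trans (pow_le_pow_left₀ (by linarith) hu0 _)
  have e1 : 1 - (1 - u ^ k1) ^ k2 - 1 = -(1 - u ^ k1) ^ k2 := by ring
  rw [e1, abs_neg, abs_of_nonneg (pow_nonneg (by linarith) _)]
  refine (pow_le_inv hv0 hv1 k2).trans ?_
  have h1 : 1 / (2 * β) ≤ k2 * u ^ k1 := by
    calc 1 / (2 * β) = β⁻¹ ^ 2 * (β / 2) := by field_simp
      _ ≤ k2 * u ^ k1 := by gcongr
  have h2 : 0 < 1 / (2 * β) := by positivity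
  rw [div_le_iff₀ (by linarith)]
  calc (1:ℝ) = 2 * β * (1 / (2 * β)) := by field_simp
    _ ≤ 2 * β * (1 + k2 * u ^ k1) := by
        apply mul_le_mul_of_nonneg_left _ (by positivity)
        linarith

theorem val_far {η β u : ℝ} (hη : 0 < η) (hη1 : η ≤ 1 / 2) (hβ : 0 < β) (hβ1 : β < 1)
    {k1 k2 : ℕ} (hk1 : (1 - η) ^ k1 ≤ β) (hk2 : (k2:ℝ) ≤ 2 * β⁻¹ ^ 2) (hu0 : 0 ≤ u)
    (hu1 : u ≤ 1 - 49 * η) :
    |1 - (1 - u ^ k1) ^ k2| ≤ 2 * β ^ 47 := by
  have hb : u ≤ (1 - η) ^ 49 := by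
    refine hu1.trans ?_
    have h1 := one_add_mul_le_pow (a := -η) (by linarith) 49
    norm_num at h1
    linarith
  have hη' : 0 ≤ 1 - η := by linarith
  have hv : u ^ k1 ≤ β ^ 49 := by
    calc u ^ k1 ≤ ((1 - η) ^ 49) ^ k1 := pow_le_pow_left₀ hu0 hb _
      _ = ((1 - η) ^ k1) ^ 49 := by rw [← pow_mul, ← pow_mul, mul_comm]
      _ ≤ β ^ 49 := pow_le_pow_left₀ (pow_nonneg hη' _) hk1 _
  have hv0 : 0 ≤ u ^ k1 := by positivity
  have hv1 : u ^ k1 ≤ 1 := hv.trans (pow_le_one₀ hβ.le hβ1.le)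
  have h2 := one_add_mul_le_pow (a := -(u ^ k1)) (by linarith) k2
  rw [← sub_eq_add_neg] at h2
  have h3 : (1 - u ^ k1) ^ k2 ≤ 1 := pow_le_one₀ (by linarith) (by linarith)
  rw [abs_of_nonneg (by linarith)]
  calc 1 - (1 - u ^ k1) ^ k2 ≤ k2 * u ^ k1 := by linarith
    _ ≤ (2 * β⁻¹ ^ 2) * β ^ 49 := by gcongr
    _ = 2 * β ^ 47 := by
        have : β ^ 49 = β ^ 47 * β ^ 2 := by ring
        rw [this]
        field_simp

/-- The polynomial map. -/
noncomputable def pmap {n : ℕ} (P : Fin n → MvPolynomial (Fin n) ℝ) (x : E n) : E n :=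
  WithLp.toLp 2 (fun j => MvPolynomial.eval (fun l => x l) (P j))

/-- The affine polynomial `(1 + ⟨x, e⟩) / 2`. -/
noncomputable def Upoly {n : ℕ} (e : E n) : MvPolynomial (Fin n) ℝ :=
  MvPolynomial.C (1 / 2) * (1 + ∑ l, MvPolynomial.C (e l) * MvPolynomial.X l)

theorem eval_Upoly {n : ℕ} (e x : E n) :
    MvPolynomial.eval (fun l => x l) (Upoly e) = (1 + inner ℝ x e) / 2 := by
  unfold Upoly
  simp only [map_mul, map_add, map_sum, MvPolynomial.eval_C, MvPolynomial.eval_X, map_one]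
  have h1 : (inner ℝ x e : ℝ) = ∑ l, e l * x l := by
    rw [PiLp.inner_apply]
    apply Finset.sum_congr rfl
    intro l _
    simp
  rw [h1]
  ring

theorem degree_Upoly {n : ℕ} (e : E n) : (Upoly e).totalDegree ≤ 1 := by
  unfold Upoly
  refine (MvPolynomial.totalDegree_mul _ _).trans ?_
  rw [MvPolynomial.totalDegree_C, zero_add]
  refine (MvPolynomial.totalDegree_add _ _).trans ?_
  rw [MvPolynomial.totalDegree_one]
  simp only [zero_le, sup_of_le_right]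
  apply MvPolynomial.totalDegree_finsetSum_le
  intro l _
  refine (MvPolynomial.totalDegree_mul _ _).trans ?_
  rw [MvPolynomial.totalDegree_C, zero_add, MvPolynomial.totalDegree_X]

/-- The approximate indicator. -/
noncomputable def Qpoly {n : ℕ} (k1 k2 : ℕ) (e : E n) : MvPolynomial (Fin n) ℝ :=
  1 - (1 - Upoly e ^ k1) ^ k2

theorem degree_Qpoly {n : ℕ} (k1 k2 : ℕ) (e : E n) : (Qpoly k1 k2 e).totalDegree ≤ k1 * k2 := by
  unfold Qpoly
  refine (MvPolynomial.totalDegree_sub _ _).trans ?_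
  rw [MvPolynomial.totalDegree_one]
  simp only [zero_le, sup_of_le_right]
  refine (MvPolynomial.totalDegree_pow _ _).trans ?_
  rw [mul_comm]
  apply Nat.mul_le_mul_right
  refine (MvPolynomial.totalDegree_sub _ _).trans ?_
  rw [MvPolynomial.totalDegree_one]
  simp only [zero_le, sup_of_le_right]
  refine (MvPolynomial.totalDegree_pow _ _).trans ?_
  calc k1 * (Upoly e).totalDegree ≤ k1 * 1 := Nat.mul_le_mul_left _ (degree_Upoly e)
    _ = k1 := mul_one _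

/-- The map `∑ Q_i a_i`. -/
noncomputable def Pmap {n : ℕ} {ι : Type} [Fintype ι] (k1 k2 : ℕ) (a e : ι → E n) :
    Fin n → MvPolynomial (Fin n) ℝ :=
  fun j => ∑ i, MvPolynomial.C (a i j) * Qpoly k1 k2 (e i)

theorem degree_Pmap {n : ℕ} {ι : Type} [Fintype ι] (k1 k2 : ℕ) (a e : ι → E n) (j : Fin n) :
    (Pmap k1 k2 a e j).totalDegree ≤ k1 * k2 := by
  unfold Pmap
  apply MvPolynomial.totalDegree_finsetSum_le
  intro i _
  refine (MvPolynomial.totalDegree_mul _ _).trans ?_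
  rw [MvPolynomial.totalDegree_C, zero_add]
  exact degree_Qpoly _ _ _

theorem pmap_Pmap {n : ℕ} {ι : Type} [Fintype ι] (k1 k2 : ℕ) (a e : ι → E n) (x : E n) :
    pmap (Pmap k1 k2 a e) x
      = ∑ i, (1 - (1 - ((1 + inner ℝ x (e i)) / 2) ^ k1) ^ k2) • a i := by
  ext j
  rw [WithLp.ofLp_sum, Finset.sum_apply]
  unfold pmap Pmap Qpoly
  simp only [map_sum, map_mul, map_sub, map_pow, map_one, MvPolynomial.eval_C, eval_Upoly,
    PiLp.smul_apply, smul_eq_mul]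
  apply Finset.sum_congr rfl
  intro i _
  ring

theorem u_eq {n : ℕ} {x e : E n} (hx : ‖x‖ = 1) (he : ‖e‖ = 1) :
    (1 + inner ℝ x e) / 2 = 1 - ‖x - e‖ ^ 2 / 4 := by
  have h := norm_sub_sq_real x e
  rw [hx, he] at h
  rw [h]
  ring

/-- **Approximation of families of points.** -/
theorem approx (d : ℕ) {R : ℝ} (hR : 0 < R) : ∃ (K : ℝ) (D : ℕ), 0 < K ∧ ∀ ρ : ℝ, 0 < ρ → ρ ≤ 1 →
    ∀ (ι : Type) [Fintype ι] (a e : ι → E (d + 1)), (∀ i, ‖e i‖ = 1) → (∀ i, ‖a i‖ ≤ R) →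
    (∀ i j, i ≠ j → ρ ≤ ‖e i - e j‖) →
    ∃ (k : ℕ) (P : Fin (d + 1) → MvPolynomial (Fin (d + 1)) ℝ), 1 ≤ k ∧ (k : ℝ) ≤ K * ρ⁻¹ ^ D ∧
      (∀ j, (P j).totalDegree ≤ k) ∧
      ∀ i, ∀ x : E (d + 1), ‖x‖ = 1 → ‖x - e i‖ ≤ ρ / 8 → ‖pmap P x - a i‖ ≤ ρ := by
  obtain ⟨C1, hC1, hpack⟩ := cap_packing d
  set M : ℝ := 1 + 4 * R + 4 * (R * (C1 * 3 ^ d)) with hM
  have hM1 : 1 < M := by
    have : 0 < 4 * R + 4 * (R * (C1 * 3 ^ d)) := by positivity
    rw [hM]; linarith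
  refine ⟨1100 * M ^ 3, 3 * d + 5, by positivity, ?_⟩
  intro ρ hρ hρ1 ι _ a e he ha hsep
  rcases isEmpty_or_nonempty ι with hι | hι
  · refine ⟨1, fun _ => 0, le_rfl, ?_, by simp, fun i => (hι.false i).elim⟩
    have h1 : 1 ≤ ρ⁻¹ ^ (3 * d + 5) := one_le_pow₀ ((one_le_inv₀ hρ).2 hρ1)
    have h2 : 1 ≤ M ^ 3 := one_le_pow₀ hM1.le
    push_cast
    nlinarith
  set β : ℝ := ρ ^ (d + 1) / M with hβ
  have hβ0 : 0 < β := by positivity
  have hρd : ρ ^ (d + 1) ≤ 1 := pow_le_one₀ hρ.le hρ1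
  have hβ1 : β < 1 := by
    rw [hβ, div_lt_one (by linarith)]
    linarith
  set η : ℝ := ρ ^ 2 / 256 with hη
  have hη0 : 0 < η := by positivity
  have hρ2 : ρ ^ 2 ≤ 1 := pow_le_one₀ hρ.le hρ1
  have hη1 : η ≤ 1 / 2 := by rw [hη]; linarith
  obtain ⟨k1, hk1, hk1a, hk1b, hk1c⟩ := exists_k1 hη0 hη1 hβ0 hβ1
  set k2 : ℕ := ⌈β⁻¹ ^ 2⌉₊ with hk2
  have hβi : 1 ≤ β⁻¹ ^ 2 := one_le_pow₀ ((one_le_inv₀ hβ0).2 hβ1.le)
  have hk2a : β⁻¹ ^ 2 ≤ k2 := Nat.le_ceil _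
  have hk2b : (k2:ℝ) ≤ 2 * β⁻¹ ^ 2 := by
    have := (Nat.ceil_lt_add_one (by positivity : 0 ≤ β⁻¹ ^ 2)).le
    rw [hk2]; linarith
  have hk2c : 1 ≤ k2 := by
    have : (1:ℝ) ≤ k2 := hβi.trans hk2a
    exact_mod_cast this
  refine ⟨k1 * k2, Pmap k1 k2 a e, Nat.one_le_iff_ne_zero.2 (by positivity), ?_,
    fun j => degree_Pmap _ _ _ _ _, ?_⟩
  · push_cast
    have h1 : β⁻¹ = M * ρ⁻¹ ^ (d + 1) := by
      rw [hβ, inv_div, div_eq_mul_inv, inv_pow]
    have hi : 1 ≤ ρ⁻¹ := (one_le_inv₀ hρ).2 hρ1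
    have h2 : (k1:ℝ) ≤ 257 * M * ρ⁻¹ ^ (d + 3) := by
      have e1 : 1 / (β * η) = 256 * M * ρ⁻¹ ^ (d + 3) := by
        rw [one_div, mul_inv, h1, hη, inv_div]
        rw [pow_add ρ⁻¹ d 3, pow_succ ρ⁻¹ d, inv_pow, inv_pow]
        field_simp
      have e2 : 1 ≤ M * ρ⁻¹ ^ (d + 3) := by
        have := one_le_pow₀ hi (n := d + 3)
        nlinarith
      rw [e1] at hk1c
      linarith
    have h3 : (k2:ℝ) ≤ 2 * M ^ 2 * ρ⁻¹ ^ (2 * d + 2) := by
      refine hk2b.trans (le_of_eq ?_)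
      rw [h1, mul_pow, ← pow_mul]
      ring
    have hM0 : 0 < M := by linarith
    have hi0 : 0 < ρ⁻¹ := by linarith
    calc (k1:ℝ) * k2 ≤ (257 * M * ρ⁻¹ ^ (d + 3)) * (2 * M ^ 2 * ρ⁻¹ ^ (2 * d + 2)) := by gcongr
      _ = 514 * M ^ 3 * ρ⁻¹ ^ (3 * d + 5) := by
          have : ρ⁻¹ ^ (3 * d + 5) = ρ⁻¹ ^ (d + 3) * ρ⁻¹ ^ (2 * d + 2) := by
            rw [← pow_add]; congr 1; ring
          rw [this]; ring
      _ ≤ _ := by
          gcongr
          norm_num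
  · intro i x hx hxi
    classical
    rw [pmap_Pmap]
    set qv : ι → ℝ := fun i => 1 - (1 - ((1 + inner ℝ x (e i)) / 2) ^ k1) ^ k2 with hqv
    have h1 : |qv i - 1| ≤ 2 * β := by
      simp only [hqv]
      rw [u_eq hx (he i)]
      apply val_near hη0 hη1 hβ0 hk1b hk2a
      · have : ‖x - e i‖ ^ 2 ≤ (ρ / 8) ^ 2 := by gcongr
        rw [hη]
        nlinarith
      · nlinarith [sq_nonneg ‖x - e i‖]
    have h2 : ∀ i' ≠ i, |qv i'| ≤ 2 * β ^ 47 := by
      intro i' hi'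
      simp only [hqv]
      rw [u_eq hx (he i')]
      have h3 : 7 * ρ / 8 ≤ ‖x - e i'‖ := by
        have h4 := hsep i' i hi'
        have h5 : ‖e i' - e i‖ ≤ ‖x - e i‖ + ‖x - e i'‖ := by
          have e1 : e i' - e i = (x - e i) - (x - e i') := by abel
          rw [e1]
          exact norm_sub_le _ _
        linarith
      apply val_far hη0 hη1 hβ0 hβ1 hk1a hk2b
      · have h4 : ‖x - e i'‖ ≤ 2 := by
          refine (norm_sub_le _ _).trans ?_
          rw [hx, he]; norm_num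
        nlinarith [norm_nonneg (x - e i')]
      · have : (7 * ρ / 8) ^ 2 ≤ ‖x - e i'‖ ^ 2 := by gcongr
        rw [hη]
        nlinarith
    have hcard : (Fintype.card ι : ℝ) ≤ C1 * 3 ^ d * ρ⁻¹ ^ d := by
      have h3 := hpack ρ 2 hρ hρ1 (by norm_num) ι Finset.univ e (e i) (he i) (fun i _ => he i)
        (fun i _ j _ hij => hsep i j hij) (fun j _ => by
          refine (norm_sub_le _ _).trans ?_
          rw [he i, he j]; norm_num)
      rw [Finset.card_univ] at h3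
      refine h3.trans ?_
      rw [mul_assoc, ← mul_pow]
      gcongr
      rw [← div_eq_mul_inv]
      gcongr
      linarith
    have e0 : ∀ f : ι → E (d + 1), ∑ i', f i' - a i
        = (f i - a i) + ∑ i' ∈ Finset.univ.erase i, f i' := by
      intro f
      rw [← Finset.add_sum_erase _ f (Finset.mem_univ i)]
      abel
    have e1 : ∑ i', qv i' • a i' - a i
        = (qv i - 1) • a i + ∑ i' ∈ Finset.univ.erase i, qv i' • a i' := by
      rw [e0 (fun i' => qv i' • a i'), sub_smul (qv i) 1 (a i), one_smul]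
    have e2 : ∑ i', (1 - (1 - ((1 + inner ℝ x (e i')) / 2) ^ k1) ^ k2) • a i'
        = ∑ i', qv i' • a i' := rfl
    rw [e2, e1]
    have h3 : ‖(qv i - 1) • a i‖ ≤ 2 * β * R := by
      rw [norm_smul, Real.norm_eq_abs]
      exact mul_le_mul h1 (ha i) (norm_nonneg _) (by positivity)
    have h4 : ‖∑ i' ∈ Finset.univ.erase i, qv i' • a i'‖ ≤ C1 * 3 ^ d * ρ⁻¹ ^ d * (2 * β * R) := by
      calc ‖∑ i' ∈ Finset.univ.erase i, qv i' • a i'‖
          ≤ ∑ i' ∈ Finset.univ.erase i, ‖qv i' • a i'‖ := norm_sum_le _ _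
        _ ≤ ∑ i' ∈ Finset.univ.erase i, (2 * β * R) := by
            apply Finset.sum_le_sum
            intro i' hi'
            rw [norm_smul, Real.norm_eq_abs]
            have h5 : 2 * β ^ 47 ≤ 2 * β := by
              have : β ^ 47 ≤ β ^ 1 := pow_le_pow_of_le_one hβ0.le hβ1.le (by norm_num)
              rw [pow_one] at this
              linarith
            exact mul_le_mul ((h2 i' (Finset.ne_of_mem_erase hi')).trans h5) (ha i')
              (norm_nonneg _) (by positivity)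
        _ = ((Finset.univ.erase i).card : ℝ) * (2 * β * R) := by
            rw [Finset.sum_const, nsmul_eq_mul]
        _ ≤ (Fintype.card ι : ℝ) * (2 * β * R) := by
            gcongr
            exact Finset.card_le_univ _
        _ ≤ _ := by gcongr
    refine (norm_add_le _ _).trans ((add_le_add h3 h4).trans ?_)
    have e3 : ρ⁻¹ ^ d * β = ρ / M := by
      rw [hβ, pow_succ, inv_pow]
      field_simp
    have hM0 : 0 < M := by linarith
    have h5 : β ≤ ρ / M := by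
      rw [hβ, pow_succ]
      gcongr
      have : ρ ^ d ≤ 1 := pow_le_one₀ hρ.le hρ1
      nlinarith
    calc 2 * β * R + C1 * 3 ^ d * ρ⁻¹ ^ d * (2 * β * R)
        = 2 * R * β + 2 * (R * (C1 * 3 ^ d)) * (ρ⁻¹ ^ d * β) := by ring
      _ ≤ 2 * R * (ρ / M) + 2 * (R * (C1 * 3 ^ d)) * (ρ / M) := by
          rw [e3]
          gcongr
      _ = (2 * R + 2 * (R * (C1 * 3 ^ d))) / M * ρ := by ring
      _ ≤ 1 * ρ := by
          gcongr
          rw [div_le_one hM0, hM]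
          have : 0 < R * (C1 * 3 ^ d) := by positivity
          linarith
      _ = ρ := one_mul _

end Pool.Agent.Helper37.Kq
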